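import Mathlib

/-!
Domination in the orthogonality graph of the internal points of a conic over a finite field `F` with
`|F| = 3 mod 4`: vertices `(x, r)` with `r` a nonzero square, adjacency `(x - x')^2 + r + r' = 0`.
-/

set_option autoImplicit false

open Finset

namespace Pool.Agent.Helper38.SP

variable {F : Type*} [Field F] [Fintype F] [DecidableEq F]

open Classical in
/-- the nonzero squares -/
noncomputable def sqs (F : Type*) [Field F] [Fintype F] : Finset F :=
  Finset.univ.filter (fun r => r ≠ 0 ∧ IsSquare r)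

omit [DecidableEq F] in
theorem mem_sqs {r : F} : r ∈ sqs F ↔ r ≠ 0 ∧ IsSquare r := by
  classical
  simp [sqs]

omit [DecidableEq F] in
theorem two_ne_zero' (hq : Fintype.card F % 4 = 3) : (2 : F) ≠ 0 := by
  intro h
  have h2 : ringChar F = 2 := by
    have := (ringChar.spec F 2).1 (by exact_mod_cast h)
    rcases (Nat.dvd_prime Nat.prime_two).1 this with h1 | h1
    · exfalso
      have hp := CharP.char_is_prime F (ringChar F)
      rw [h1] at hp
      exact Nat.not_prime_one hp
    · exact h1
  have := FiniteField.even_card_of_char_two h2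
  omega

omit [DecidableEq F] in
theorem neg_one_not_sq (hq : Fintype.card F % 4 = 3) : ¬ IsSquare (-1 : F) := by
  rw [FiniteField.isSquare_neg_one_iff]
  simpa using hq

omit [DecidableEq F] in
theorem sq_or_neg (hq : Fintype.card F % 4 = 3) {a : F} (ha : a ≠ 0) :
    IsSquare a ∨ IsSquare (-a) := by
  classical
  by_cases h : IsSquare a
  · exact Or.inl h
  right
  have hch : ringChar F ≠ 2 := by
    intro h2
    have := FiniteField.even_card_of_char_two h2
    omega
  have h1 : quadraticChar F a = -1 := (quadraticChar_neg_one_iff_not_isSquare).2 h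
  have h2 : quadraticChar F (-1) = -1 :=
    (quadraticChar_neg_one_iff_not_isSquare).2 (neg_one_not_sq hq)
  have h3 : quadraticChar F (-a) = 1 := by
    have : -a = (-1) * a := by ring
    rw [this, map_mul, h1, h2]; norm_num
  exact (quadraticChar_one_iff_isSquare (neg_ne_zero.2 ha)).1 h3

omit [DecidableEq F] in
theorem not_both (hq : Fintype.card F % 4 = 3) {a : F} (ha : a ≠ 0) (h1 : IsSquare a)
    (h2 : IsSquare (-a)) : False := by
  apply neg_one_not_sq (F := F) hq
  have := h2.mul h1.inv
  rwa [neg_mul, mul_inv_cancel₀ ha] at this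

theorem two_mul_card_sqs (hq : Fintype.card F % 4 = 3) :
    2 * (sqs F).card ≤ Fintype.card F - 1 := by
  have himg : sqs F = ((Finset.univ : Finset F).erase 0).image (fun x => x * x) := by
    ext r
    rw [mem_sqs, Finset.mem_image]
    constructor
    · rintro ⟨h0, c, hc⟩
      refine ⟨c, ?_, hc.symm⟩
      simp only [Finset.mem_erase, Finset.mem_univ, and_true]
      rintro rfl
      exact h0 (by simpa using hc)
    · rintro ⟨c, hc, rfl⟩
      simp only [Finset.mem_erase, Finset.mem_univ, and_true] at hc
      exact ⟨mul_ne_zero hc hc, ⟨c, rfl⟩⟩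
  rw [himg]
  have h := Finset.mul_card_image_le_card (f := fun x : F => x * x)
    ((Finset.univ : Finset F).erase 0) 2 (by
      intro a ha
      obtain ⟨c, hc, rfl⟩ := Finset.mem_image.1 ha
      have hc0 : c ≠ 0 := by simpa using hc
      have hsub : ({c, -c} : Finset F) ⊆
          (((Finset.univ : Finset F).erase 0).filter (fun x => x * x = c * c)) := by
        intro x hx
        simp only [Finset.mem_insert, Finset.mem_singleton] at hx
        rcases hx with rfl | rfl
        · simp [hc0]
        · simp [hc0]
      have hne : c ≠ -c := by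
        intro h
        have : (2 : F) * c = 0 := by linear_combination h
        rcases mul_eq_zero.1 this with h | h
        · exact two_ne_zero' hq h
        · exact hc0 h
      calc 2 = ({c, -c} : Finset F).card := (Finset.card_pair hne).symm
        _ ≤ _ := Finset.card_le_card hsub)
  rwa [Finset.card_erase_of_mem (Finset.mem_univ _), Finset.card_univ] at h

/-- the number of `u` with `u^2 + r` a nonzero square is at most `(q-1)/2` -/
theorem count_sq (hq : Fintype.card F % 4 = 3) {r : F} (hr : r ∈ sqs F) :
    2 * ((Finset.univ : Finset F).filter (fun u => u ^ 2 + r ∈ sqs F)).card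
      ≤ Fintype.card F - 1 := by
  obtain ⟨hr0, hrs⟩ := mem_sqs.1 hr
  have h2 : (2 : F) ≠ 0 := two_ne_zero' hq
  have hsub : (Finset.univ : Finset F).filter (fun u => u ^ 2 + r ∈ sqs F) ⊆
      ((Finset.univ : Finset F).erase 0).image (fun e => (e - r / e) / 2) := by
    intro u hu
    obtain ⟨h0, w, hw⟩ := mem_sqs.1 (Finset.mem_filter.1 hu).2
    have hprod : (w + u) * (w - u) = r := by linear_combination -hw
    have he : w + u ≠ 0 := by
      intro h
      rw [h, zero_mul] at hprod
      exact hr0 hprod.symm
    refine Finset.mem_image.2 ⟨w + u, by simpa using he, ?_⟩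
    have : r / (w + u) = w - u := by
      rw [div_eq_iff he]; linear_combination -hprod
    simp only [this]
    field_simp
    ring
  have h := Finset.mul_card_image_le_card (f := fun e : F => (e - r / e) / 2)
    ((Finset.univ : Finset F).erase 0) 2 (by
      intro a ha
      obtain ⟨c, hc, rfl⟩ := Finset.mem_image.1 ha
      have hc0 : c ≠ 0 := by simpa using hc
      have hrc : -r / c ≠ 0 := div_ne_zero (neg_ne_zero.2 hr0) hc0
      have hsub : ({c, -r / c} : Finset F) ⊆
          (((Finset.univ : Finset F).erase 0).filter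
            (fun x => (x - r / x) / 2 = (c - r / c) / 2)) := by
        intro x hx
        simp only [Finset.mem_insert, Finset.mem_singleton] at hx
        rcases hx with rfl | rfl
        · simp [hc0]
        · simp only [Finset.mem_filter, Finset.mem_erase, Finset.mem_univ, and_true]
          refine ⟨hrc, ?_⟩
          field_simp
          ring
      have hne : c ≠ -r / c := by
        intro h
        have h' : -r = c * c := by
          rw [eq_div_iff hc0] at h
          exact h.symm
        exact not_both hq hr0 hrs ⟨c, h'⟩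
      calc 2 = ({c, -r / c} : Finset F).card := (Finset.card_pair hne).symm
        _ ≤ _ := Finset.card_le_card hsub)
  rw [Finset.card_erase_of_mem (Finset.mem_univ _), Finset.card_univ] at h
  exact le_trans (Nat.mul_le_mul_left 2 (Finset.card_le_card hsub)) h

/-- `z` is not covered by the pencil of `v`. -/
def Unb (v : F) (z : F × F) : Prop := ∀ r ∈ sqs F, (v - z.1) ^ 2 + r + z.2 ≠ 0

theorem count_unb (hq : Fintype.card F % 4 = 3) {z : F × F} (hz : z.2 ∈ sqs F) :
    2 * (by classical exact ((Finset.univ : Finset F).filter (fun v => Unb v z)).card)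
      ≤ Fintype.card F - 1 := by
  classical
  refine le_trans (Nat.mul_le_mul_left 2 ?_) (count_sq hq hz)
  apply Finset.card_le_card_of_injOn (fun v => v - z.1)
  · intro v hv
    have hv' : Unb v z := (Finset.mem_filter.1 hv).2
    simp only [Finset.coe_filter, Finset.mem_univ, true_and, Set.mem_ofPred_eq]
    obtain ⟨hr0, hrs⟩ := mem_sqs.1 hz
    have hne : (v - z.1) ^ 2 + z.2 ≠ 0 := by
      intro h
      apply not_both hq hr0 hrs
      exact ⟨v - z.1, by linear_combination -h⟩
    rw [mem_sqs]
    refine ⟨hne, ?_⟩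
    rcases sq_or_neg hq hne with h | h
    · exact h
    · exfalso
      refine hv' (-((v - z.1) ^ 2 + z.2)) (mem_sqs.2 ⟨neg_ne_zero.2 hne, h⟩) ?_
      ring
  · intro a _ b _ h
    simpa using h

open Classical in
theorem greedy_step (hq : Fintype.card F % 4 = 3) (Z : Finset (F × F))
    (hZ : ∀ z ∈ Z, z.2 ∈ sqs F) :
    ∃ v : F, 2 * (Z.filter (fun z => Unb v z)).card ≤ Z.card ∧
      (0 < Z.card → 2 * (Z.filter (fun z => Unb v z)).card < Z.card) := by
  set q := Fintype.card F with hqdef
  have hq0 : 0 < q := Fintype.card_pos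
  have key : ∃ v : F, 2 * q * (Z.filter (fun z => Unb v z)).card ≤ (q - 1) * Z.card := by
    by_contra hcon
    push Not at hcon
    have h1 : ∑ _v : F, (q - 1) * Z.card < ∑ v : F, 2 * q * (Z.filter (fun z => Unb v z)).card :=
      Finset.sum_lt_sum_of_nonempty ⟨0, Finset.mem_univ _⟩ (fun v _ => hcon v)
    rw [Finset.sum_const, Finset.card_univ, ← hqdef, smul_eq_mul, ← Finset.mul_sum] at h1
    have h2 : ∑ v : F, (Z.filter (fun z => Unb v z)).card
        = ∑ z ∈ Z, ((Finset.univ : Finset F).filter (fun v => Unb v z)).card := by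
      simp only [Finset.card_filter]
      rw [Finset.sum_comm]
    rw [h2] at h1
    have h3 : 2 * ∑ z ∈ Z, ((Finset.univ : Finset F).filter (fun v => Unb v z)).card
        ≤ Z.card * (q - 1) := by
      rw [Finset.mul_sum]
      calc ∑ z ∈ Z, 2 * ((Finset.univ : Finset F).filter (fun v => Unb v z)).card
          ≤ ∑ _z ∈ Z, (q - 1) := by
            apply Finset.sum_le_sum
            intro z hz
            have := count_unb hq (hZ z hz)
            simpa using this
        _ = Z.card * (q - 1) := by rw [Finset.sum_const, smul_eq_mul]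
    have h4 := Nat.mul_le_mul_left q h3
    nlinarith
  obtain ⟨v, hv⟩ := key
  refine ⟨v, ?_, ?_⟩
  · by_contra h
    push Not at h
    have h5 : q * Z.card < 2 * q * (Z.filter (fun z => Unb v z)).card := by nlinarith
    have h6 : (q - 1) * Z.card ≤ q * Z.card := Nat.mul_le_mul_right _ (Nat.sub_le _ _)
    omega
  · intro hpos
    by_contra h
    push Not at h
    have h5 : q * Z.card ≤ 2 * q * (Z.filter (fun z => Unb v z)).card := by nlinarith
    have h6 : (q - 1) * Z.card < q * Z.card := Nat.mul_lt_mul_of_pos_right (by omega) hpos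
    omega

open Classical in
theorem greedy (hq : Fintype.card F % 4 = 3) (U : Finset (F × F))
    (hU : ∀ z ∈ U, z.2 ∈ sqs F) (hU0 : 0 < U.card) (k : ℕ) :
    ∃ V : Finset F, V.card ≤ k ∧
      2 ^ k * (U.filter (fun z => ∀ v ∈ V, Unb v z)).card ≤ U.card ∧
      (0 < k → 2 ^ k * (U.filter (fun z => ∀ v ∈ V, Unb v z)).card < U.card) := by
  induction k with
  | zero =>
    exact ⟨∅, by simp, by simp, fun h => absurd h (lt_irrefl _)⟩
  | succ k ih =>
    obtain ⟨V, hV, hle, -⟩ := ih
    obtain ⟨v, hv1, hv2⟩ := greedy_step hq (U.filter (fun z => ∀ v ∈ V, Unb v z))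
      (fun z hz => hU z (Finset.mem_filter.1 hz).1)
    have hset : U.filter (fun z => ∀ w ∈ insert v V, Unb w z)
        = (U.filter (fun z => ∀ w ∈ V, Unb w z)).filter (fun z => Unb v z) := by
      ext z
      simp only [Finset.mem_filter, Finset.mem_insert, forall_eq_or_imp]
      tauto
    refine ⟨insert v V, (Finset.card_insert_le _ _).trans (by omega), ?_, ?_⟩
    · rw [hset, pow_succ]
      calc 2 ^ k * 2 * ((U.filter (fun z => ∀ w ∈ V, Unb w z)).filter (fun z => Unb v z)).card
          = 2 ^ k * (2 * ((U.filter (fun z => ∀ w ∈ V, Unb w z)).filter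
              (fun z => Unb v z)).card) := by ring
        _ ≤ 2 ^ k * (U.filter (fun z => ∀ w ∈ V, Unb w z)).card := Nat.mul_le_mul_left _ hv1
        _ ≤ U.card := hle
    · intro _
      rw [hset, pow_succ]
      rcases Nat.eq_zero_or_pos (U.filter (fun z => ∀ w ∈ V, Unb w z)).card with h0 | hpos
      · have : ((U.filter (fun z => ∀ w ∈ V, Unb w z)).filter (fun z => Unb v z)).card = 0 := by
          have := Finset.card_filter_le (U.filter (fun z => ∀ w ∈ V, Unb w z))
            (fun z => Unb v z)
          omega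
        rw [this]
        simpa using hU0
      · calc 2 ^ k * 2 * ((U.filter (fun z => ∀ w ∈ V, Unb w z)).filter (fun z => Unb v z)).card
            = 2 ^ k * (2 * ((U.filter (fun z => ∀ w ∈ V, Unb w z)).filter
                (fun z => Unb v z)).card) := by ring
          _ < 2 ^ k * (U.filter (fun z => ∀ w ∈ V, Unb w z)).card :=
              Nat.mul_lt_mul_of_pos_left (hv2 hpos) (by positivity)
          _ ≤ U.card := hle

/-- The domination bound. -/
theorem domination (hq : Fintype.card F % 4 = 3) (K : ℕ) (hK0 : 0 < K)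
    (hK : Fintype.card F ≤ 2 ^ K) :
    ∃ S : Finset (F × F), (∀ s ∈ S, s.2 ∈ sqs F) ∧
      S.card ≤ (Fintype.card F - 1) / 2 * K + (Fintype.card F - 3) / 2 ∧
      ∀ z : F × F, z.2 ∈ sqs F → ∃ s ∈ S, s = z ∨ (s.1 - z.1) ^ 2 + s.2 + z.2 = 0 := by
  classical
  set q := Fintype.card F with hqdef
  have hR := two_mul_card_sqs (F := F) hq
  rw [← hqdef] at hR
  have hR1 : (1 : F) ∈ sqs F := mem_sqs.2 ⟨one_ne_zero, ⟨1, by simp⟩⟩
  set U : Finset (F × F) := (Finset.univ : Finset F) ×ˢ sqs F with hUdef
  have hU : ∀ z ∈ U, z.2 ∈ sqs F := fun z hz => (Finset.mem_product.1 hz).2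
  have hU0 : 0 < U.card := Finset.card_pos.2 ⟨(0, 1), by simp [hUdef, hR1]⟩
  obtain ⟨V, hV, -, hlt⟩ := greedy hq U hU hU0 K
  have hlt := hlt hK0
  set Z := U.filter (fun z => ∀ v ∈ V, Unb v z) with hZdef
  refine ⟨(V ×ˢ sqs F) ∪ Z, ?_, ?_, ?_⟩
  · intro s hs
    rcases Finset.mem_union.1 hs with h | h
    · exact (Finset.mem_product.1 h).2
    · exact hU s (Finset.mem_filter.1 h).1
  · have hUc : U.card = q * (sqs F).card := by
      rw [hUdef, Finset.card_product, Finset.card_univ]
    have hZc : Z.card ≤ (q - 3) / 2 := by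
      have h1 : q * Z.card ≤ 2 ^ K * Z.card := Nat.mul_le_mul_right _ hK
      have h2 : q * Z.card < q * (sqs F).card := by
        rw [← hUc]; exact lt_of_le_of_lt h1 hlt
      have h3 : Z.card < (sqs F).card := lt_of_mul_lt_mul_left h2 (Nat.zero_le _)
      omega
    have hVc : (V ×ˢ sqs F).card ≤ (q - 1) / 2 * K := by
      rw [Finset.card_product, mul_comm]
      apply Nat.mul_le_mul _ hV
      omega
    calc ((V ×ˢ sqs F) ∪ Z).card ≤ (V ×ˢ sqs F).card + Z.card := Finset.card_union_le _ _
      _ ≤ _ := Nat.add_le_add hVc hZc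
  · intro z hz
    by_cases h : z ∈ Z
    · exact ⟨z, Finset.mem_union_right _ h, Or.inl rfl⟩
    · have hzU : z ∈ U := by simp [hUdef, hz]
      have : ∃ v ∈ V, ¬ Unb v z := by
        by_contra hcon
        push Not at hcon
        exact h (Finset.mem_filter.2 ⟨hzU, hcon⟩)
      obtain ⟨v, hv, hnb⟩ := this
      unfold Unb at hnb
      push Not at hnb
      obtain ⟨r, hr, heq⟩ := hnb
      exact ⟨(v, r), Finset.mem_union_left _ (Finset.mem_product.2 ⟨hv, hr⟩), Or.inr heq⟩

end Pool.Agent.Helper38.SP
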