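import Pool.Agent.Helper38.SP38.Dom

/-!
Killing sets of elements of `PSL(2,F)`, `|F| = 3 mod 4`.
-/

set_option autoImplicit false

open Finset Matrix

namespace Pool.Agent.Helper38.SP

variable {F : Type*} [Field F] [Fintype F] [DecidableEq F]

/-- the group `SL(2,F)` -/
abbrev SL2 (F : Type*) [Field F] : Type _ := Matrix.SpecialLinearGroup (Fin 2) F

/-- the group `PSL(2,F)` -/
abbrev PSL2 (F : Type*) [Field F] : Type _ := Matrix.ProjectiveSpecialLinearGroup (Fin 2) F

/-- the projection -/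
def pr (F : Type*) [Field F] : SL2 F →* PSL2 F := QuotientGroup.mk' _

omit [Fintype F] [DecidableEq F] in
theorem pr_surj : Function.Surjective (pr F) := QuotientGroup.mk'_surjective _

omit [Fintype F] [DecidableEq F] in
theorem pr_eq_one {g : SL2 F} : pr F g = 1 ↔ g ∈ Subgroup.center (SL2 F) :=
  QuotientGroup.eq_one_iff g

omit [Fintype F] [DecidableEq F] in
theorem center_entries {g : SL2 F} (h : g ∈ Subgroup.center (SL2 F)) :
    ∃ c : F, g.1 = !![c, 0; 0, c] := by
  obtain ⟨r, -, hr⟩ := Matrix.SpecialLinearGroup.mem_center_iff.1 h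
  refine ⟨r, ?_⟩
  rw [← hr]
  ext i j
  fin_cases i <;> fin_cases j <;> simp [Matrix.scalar_apply]

/-- `-1` -/
def negI (F : Type*) [Field F] : SL2 F := ⟨!![-1, 0; 0, -1], by simp [Matrix.det_fin_two]⟩

omit [Fintype F] [DecidableEq F] in
theorem negI_center : negI F ∈ Subgroup.center (SL2 F) := by
  rw [Matrix.SpecialLinearGroup.mem_center_iff]
  refine ⟨-1, by simp, ?_⟩
  ext i j
  fin_cases i <;> fin_cases j <;> simp [Matrix.scalar_apply, negI]

/-- eigenvector -/
def Eig (g : SL2 F) (v : Fin 2 → F) : Prop := ∃ c : F, g.1.mulVec v = c • v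

omit [Fintype F] [DecidableEq F] in
theorem Eig.mul {g h : SL2 F} {v : Fin 2 → F} (hg : Eig g v) (hh : Eig h v) :
    Eig (g * h) v := by
  obtain ⟨c, hc⟩ := hg
  obtain ⟨d, hd⟩ := hh
  refine ⟨c * d, ?_⟩
  rw [Matrix.SpecialLinearGroup.coe_mul, ← Matrix.mulVec_mulVec, hd, Matrix.mulVec_smul, hc,
    smul_smul, mul_comm]

omit [Fintype F] [DecidableEq F] in
theorem Eig.inv {g : SL2 F} {v : Fin 2 → F} (hg : Eig g v) : Eig g⁻¹ v := by
  obtain ⟨c, hc⟩ := hg
  have h1 : (g⁻¹).1.mulVec (g.1.mulVec v) = v := by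
    rw [Matrix.mulVec_mulVec, ← Matrix.SpecialLinearGroup.coe_mul, inv_mul_cancel,
      Matrix.SpecialLinearGroup.coe_one, Matrix.one_mulVec]
  rw [hc, Matrix.mulVec_smul] at h1
  by_cases hc0 : c = 0
  · rw [hc0, zero_smul] at h1
    exact ⟨0, by rw [← h1]; simp⟩
  · refine ⟨c⁻¹, ?_⟩
    conv_rhs => rw [← h1]
    rw [smul_smul, inv_mul_cancel₀ hc0, one_smul]

/-- the stabiliser of a line -/
def stab (v : Fin 2 → F) : Subgroup (SL2 F) where
  carrier := {g | Eig g v}
  mul_mem' := fun ha hb => Eig.mul ha hb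
  one_mem' := ⟨1, by simp⟩
  inv_mem' := fun ha => Eig.inv ha

omit [Fintype F] [DecidableEq F] in
theorem center_le_stab (v : Fin 2 → F) : Subgroup.center (SL2 F) ≤ stab v := by
  intro g hg
  obtain ⟨c, hc⟩ := center_entries hg
  refine ⟨c, ?_⟩
  rw [hc]
  ext i
  fin_cases i <;> simp [Matrix.mulVec, dotProduct, Fin.sum_univ_two]

omit [Fintype F] [DecidableEq F] in
theorem stab_ne_top {v : Fin 2 → F} (hv : v ≠ 0) : stab v ≠ ⊤ := by
  intro htop
  have hall : ∀ g : SL2 F, Eig g v := fun g => by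
    have : g ∈ stab v := by rw [htop]; trivial
    exact this
  by_cases h1 : v 1 = 0
  · have h0 : v 0 ≠ 0 := by
      intro h0
      apply hv
      ext i
      fin_cases i
      · exact h0
      · exact h1
    obtain ⟨c, hc⟩ := hall ⟨!![1, 0; 1, 1], by simp [Matrix.det_fin_two]⟩
    have := congrFun hc 1
    simp [Matrix.mulVec, dotProduct, Fin.sum_univ_two, h1] at this
    exact h0 this
  · obtain ⟨c, hc⟩ := hall ⟨!![1, 1; 0, 1], by simp [Matrix.det_fin_two]⟩
    have e0 := congrFun hc 0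
    have e1 := congrFun hc 1
    simp [Matrix.mulVec, dotProduct, Fin.sum_univ_two] at e0 e1
    have hc1 : c = 1 := by
      have h3 : (c - 1) * v 1 = 0 := by linear_combination -e1
      rcases mul_eq_zero.1 h3 with h | h
      · linear_combination h
      · exact absurd h h1
    rw [hc1] at e0
    apply h1
    linear_combination e0

omit [Fintype F] [DecidableEq F] in
theorem kill_fix {X Y : SL2 F} {v : Fin 2 → F} (hv : v ≠ 0) (hX : Eig X v) (hY : Eig Y v) :
    Subgroup.closure {pr F X, pr F Y} ≠ ⊤ := by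
  intro htop
  apply stab_ne_top hv
  have hle : Subgroup.closure {pr F X, pr F Y} ≤ (stab v).map (pr F) := by
    rw [Subgroup.closure_le]
    intro g hg
    simp only [Set.mem_insert_iff, Set.mem_singleton_iff] at hg
    rcases hg with rfl | rfl
    · exact ⟨X, hX, rfl⟩
    · exact ⟨Y, hY, rfl⟩
  rw [htop, top_le_iff] at hle
  rw [eq_top_iff]
  intro g _
  have : pr F g ∈ (stab v).map (pr F) := by rw [hle]; trivial
  obtain ⟨h, hh, he⟩ := this
  have hc : h⁻¹ * g ∈ Subgroup.center (SL2 F) := by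
    rw [← pr_eq_one, map_mul, map_inv, he, inv_mul_cancel]
  have := (stab v).mul_mem hh (center_le_stab v hc)
  rwa [mul_inv_cancel_left] at this

theorem kill_comm {G : Type*} [Group G] {t y m g : G} (ht : t * m = m * t) (hy : y * m = m * y)
    (hg : g * m ≠ m * g) : Subgroup.closure {t, y} ≠ ⊤ := by
  intro htop
  have hle : Subgroup.closure {t, y} ≤ Subgroup.centralizer {m} := by
    rw [Subgroup.closure_le]
    intro x hx
    simp only [Set.mem_insert_iff, Set.mem_singleton_iff] at hx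
    rw [SetLike.mem_coe, Subgroup.mem_centralizer_iff]
    intro h hh
    rw [Set.mem_singleton_iff.1 hh]
    rcases hx with rfl | rfl
    · exact ht.symm
    · exact hy.symm
  rw [htop, top_le_iff] at hle
  have : g ∈ Subgroup.centralizer {m} := by rw [hle]; trivial
  rw [Subgroup.mem_centralizer_iff] at this
  exact hg (this m rfl).symm

/-- the involution of an internal point -/
def M (x ρ : F) (hρ : ρ ≠ 0) : SL2 F :=
  ⟨!![x / ρ, -(x ^ 2 + ρ ^ 2) / ρ; 1 / ρ, -x / ρ], by
    rw [Matrix.det_fin_two]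
    simp
    field_simp
    ring⟩

omit [Fintype F] [DecidableEq F] in
theorem M_rel {x ρ x' ρ' : F} (h : ρ ≠ 0) (h' : ρ' ≠ 0)
    (hrel : (x - x') ^ 2 + ρ ^ 2 + ρ' ^ 2 = 0) :
    M x ρ h * M x' ρ' h' = M x' ρ' h' * M x ρ h * negI F := by
  apply Subtype.ext
  have e1 : ρ' ^ 2 = -(x - x') ^ 2 - ρ ^ 2 := by linear_combination hrel
  simp only [Matrix.SpecialLinearGroup.coe_mul, M, negI]
  ext i j
  fin_cases i <;> fin_cases j <;>
    simp [Matrix.mul_apply, Fin.sum_univ_two] <;> field_simp <;> rw [e1] <;> ring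

omit [Fintype F] [DecidableEq F] in
theorem pr_M_comm {x ρ x' ρ' : F} (h : ρ ≠ 0) (h' : ρ' ≠ 0)
    (hrel : (x - x') ^ 2 + ρ ^ 2 + ρ' ^ 2 = 0) :
    pr F (M x ρ h) * pr F (M x' ρ' h') = pr F (M x' ρ' h') * pr F (M x ρ h) := by
  rw [← map_mul, M_rel h h' hrel, map_mul, map_mul, (pr_eq_one.2 negI_center), mul_one]

omit [Fintype F] [DecidableEq F] in
theorem pr_M_not_central {x ρ : F} (h : ρ ≠ 0) :
    ∃ g : PSL2 F, g * pr F (M x ρ h) ≠ pr F (M x ρ h) * g := by
  refine ⟨pr F ⟨!![1, 1; 0, 1], by simp [Matrix.det_fin_two]⟩, ?_⟩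
  intro heq
  rw [← map_mul, ← map_mul] at heq
  set g : SL2 F := ⟨!![1, 1; 0, 1], by simp [Matrix.det_fin_two]⟩ with hg
  have hc : (M x ρ h * g)⁻¹ * (g * M x ρ h) ∈ Subgroup.center (SL2 F) := by
    rw [← pr_eq_one, map_mul, map_inv, heq, inv_mul_cancel]
  obtain ⟨c, hc⟩ := center_entries hc
  have h1 : (g * M x ρ h).1 = (M x ρ h * g).1 * !![c, 0; 0, c] := by
    rw [← hc, ← Matrix.SpecialLinearGroup.coe_mul, mul_inv_cancel_left]
  have e10 := congrFun (congrFun h1 1) 0
  have e11 := congrFun (congrFun h1 1) 1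
  simp [Matrix.SpecialLinearGroup.coe_mul, M, hg, Matrix.mul_apply, Fin.sum_univ_two] at e10 e11
  have hc1 : c = 1 := by
    field_simp at e10
    exact e10.symm
  rw [hc1] at e11
  field_simp at e11
  have : (1 : F) = 0 := by linear_combination -e11
  exact one_ne_zero this

/-- the dichotomy for elements of `SL(2,F)` -/
theorem dichotomy (hq : Fintype.card F % 4 = 3) (Y : SL2 F) :
    (∃ v : Fin 2 → F, v ≠ 0 ∧ Eig Y v) ∨
    (∃ z : F × F, z.2 ∈ sqs F ∧ ∀ ρ : F, ∀ hρ : ρ ≠ 0, ρ ^ 2 = z.2 →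
      Y * M z.1 ρ hρ = M z.1 ρ hρ * Y) := by
  have h2 : (2 : F) ≠ 0 := two_ne_zero' hq
  obtain ⟨A, hA⟩ := Y
  obtain ⟨a, b, c, d, hAe⟩ : ∃ a b c d : F, A = !![a, b; c, d] :=
    ⟨_, _, _, _, Matrix.eta_fin_two A⟩
  subst hAe
  have hdet : a * d - b * c = 1 := by
    have := hA
    rw [Matrix.det_fin_two] at this
    simpa using this
  by_cases hc0 : c = 0
  · left
    refine ⟨![1, 0], ?_, a, ?_⟩
    · intro h
      have := congrFun h 0
      simp at this
    · ext i
      fin_cases i <;> simp [Matrix.mulVec, dotProduct, Fin.sum_univ_two, hc0]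
  by_cases hsq : IsSquare ((a + d) ^ 2 - 4)
  · left
    obtain ⟨δ, hδ⟩ := hsq
    refine ⟨![a - d + δ, 2 * c], ?_, (a + d + δ) / 2, ?_⟩
    · intro h
      have := congrFun h 1
      simp at this
      rcases this with h | h
      · exact h2 h
      · exact hc0 h
    · ext i
      fin_cases i
      · simp [Matrix.mulVec, dotProduct, Fin.sum_univ_two]
        field_simp
        linear_combination (-4 : F) * hdet + hδ
      · simp [Matrix.mulVec, dotProduct, Fin.sum_univ_two]
        field_simp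
        ring
  · right
    have hne : (a + d) ^ 2 - 4 ≠ 0 := by
      intro h
      exact hsq ⟨0, by rw [h]; ring⟩
    have hneg : IsSquare (-((a + d) ^ 2 - 4)) := by
      rcases sq_or_neg hq hne with h | h
      · exact absurd h hsq
      · exact h
    have h4 : (2 * c) ≠ 0 := mul_ne_zero h2 hc0
    obtain ⟨x, hx⟩ : ∃ x : F, a - d = x * (2 * c) := ⟨(a - d) / (2 * c), by field_simp⟩
    obtain ⟨r, hr⟩ : ∃ r : F, r * (2 * c) ^ 2 = -((a + d) ^ 2 - 4) :=
      ⟨-((a + d) ^ 2 - 4) / (2 * c) ^ 2, by field_simp⟩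
    refine ⟨(x, r), ?_, ?_⟩
    · rw [mem_sqs]
      constructor
      · intro h0
        simp only at h0
        rw [h0, zero_mul] at hr
        exact hne (neg_eq_zero.1 hr.symm)
      · obtain ⟨e, he⟩ := hneg
        refine ⟨e / (2 * c), ?_⟩
        simp only
        apply mul_right_cancel₀ (pow_ne_zero 2 h4)
        rw [hr, he]
        field_simp
    · intro ρ hρ hρ2
      simp only at hρ2
      subst hρ2
      have hbx : b = -(c * (x ^ 2 + ρ ^ 2)) := by
        have h44 : (4 * c : F) ≠ 0 := by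
          have : (4 : F) = 2 * 2 := by norm_num
          rw [this]
          exact mul_ne_zero (mul_ne_zero h2 h2) hc0
        apply mul_left_cancel₀ h44
        have hx2 : (a - d) ^ 2 = x ^ 2 * (2 * c) ^ 2 := by rw [hx]; ring
        linear_combination (-4 : F) * hdet + hr - hx2
      have hax : a = d + x * (2 * c) := by linear_combination hx
      apply Subtype.ext
      simp only [Matrix.SpecialLinearGroup.coe_mul, M]
      clear hA hdet hr hne hneg hsq hx
      subst hbx
      subst hax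
      ext i j
      fin_cases i <;> fin_cases j <;>
        simp [Matrix.mul_apply, Fin.sum_univ_two] <;> field_simp <;> ring

end Pool.Agent.Helper38.SP
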