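import Pool.Agent.Helper38.SP38.Grp

/-!
Upper bounds for the spread and the uniform spread of `PSL(2,F)`, `|F| = 3 mod 4`.
-/

set_option autoImplicit false

open Finset Matrix

namespace Pool.Agent.Helper38.SP

/-- Any `k` nontrivial elements have a common mate: there is `y` with `G = ⟨x i, y⟩` for all `i`. -/
def HasSpread (G : Type*) [Group G] (k : ℕ) : Prop :=
  ∀ x : Fin k → G, (∀ i, x i ≠ 1) → ∃ y : G, ∀ i, Subgroup.closure {x i, y} = ⊤

/-- There is one conjugacy class containing such a `y` for any `k` nontrivial elements. -/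
def HasUniformSpread (G : Type*) [Group G] (k : ℕ) : Prop :=
  ∃ c : G, ∀ x : Fin k → G, (∀ i, x i ≠ 1) →
    ∃ y : G, IsConj c y ∧ ∀ i, Subgroup.closure {x i, y} = ⊤

/-- The spread `s(G)`. -/
noncomputable def spread (G : Type*) [Group G] : ℕ := sSup {k | HasSpread G k}

/-- The uniform spread `u(G)`. -/
noncomputable def uniformSpread (G : Type*) [Group G] : ℕ := sSup {k | HasUniformSpread G k}

theorem lt_of_kill {G : Type*} [Group G] (W : Finset G) (hW : W.Nonempty)
    (h1 : ∀ w ∈ W, w ≠ 1) (P : G → Prop)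
    (hk : ∀ y, P y → ∃ w ∈ W, Subgroup.closure {w, y} ≠ ⊤) {k : ℕ}
    (hP : ∀ x : Fin k → G, (∀ i, x i ≠ 1) → ∃ y, P y ∧ ∀ i, Subgroup.closure {x i, y} = ⊤) :
    k < W.card := by
  by_contra hcon
  push Not at hcon
  have : Nonempty W := ⟨⟨hW.choose, hW.choose_spec⟩⟩
  obtain ⟨e⟩ : Nonempty (W ↪ Fin k) := by
    apply Function.Embedding.nonempty_of_card_le
    simpa using hcon
  obtain ⟨f, hs⟩ : ∃ f : Fin k → W, Function.Surjective f :=
    ⟨Function.invFun e, Function.invFun_surjective e.injective⟩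
  obtain ⟨y, hy, hall⟩ := hP (fun i => (f i : G)) (fun i => h1 _ (f i).2)
  obtain ⟨w, hw, hne⟩ := hk y hy
  obtain ⟨i, hi⟩ := hs ⟨w, hw⟩
  apply hne
  have := hall i
  rw [hi] at this
  exact this

variable {F : Type*} [Field F] [Fintype F] [DecidableEq F]

open Classical in
/-- a square root -/
noncomputable def rt (r : F) : F :=
  if h : r ≠ 0 ∧ IsSquare r then Classical.choose h.2 else 1

theorem rt_sq {r : F} (h : r ∈ sqs F) : rt r ^ 2 = r := by
  have h' := mem_sqs.1 h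
  rw [rt, dif_pos h', pow_two]
  exact (Classical.choose_spec h'.2).symm

theorem rt_ne (r : F) : rt r ≠ 0 := by
  rw [rt]
  split_ifs with h
  · intro h0
    have := Classical.choose_spec h.2
    rw [h0, mul_zero] at this
    exact h.1 this
  · exact one_ne_zero

/-- the involution of the internal point `z` -/
noncomputable def T (z : F × F) : PSL2 F := pr F (M z.1 (rt z.2) (rt_ne z.2))

theorem T_ne_one (z : F × F) : T z ≠ 1 := by
  intro h
  obtain ⟨c, hc⟩ := center_entries (pr_eq_one.1 h)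
  have := congrFun (congrFun hc 1) 0
  simp [M] at this
  exact rt_ne _ this

/-- `y` fixes a point of the projective line -/
def Fix (y : PSL2 F) : Prop := ∃ Y : SL2 F, pr F Y = y ∧ ∃ v : Fin 2 → F, v ≠ 0 ∧ Eig Y v

theorem Fix.conj {y y' : PSL2 F} (h : Fix y) (hc : IsConj y y') : Fix y' := by
  obtain ⟨Y, hY, v, hv, c, hcv⟩ := h
  obtain ⟨g, hg⟩ := isConj_iff.1 hc
  obtain ⟨G, hG⟩ := pr_surj g
  refine ⟨G * Y * G⁻¹, by rw [map_mul, map_mul, map_inv, hG, hY, hg], G.1.mulVec v, ?_, c, ?_⟩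
  · intro h0
    apply hv
    have : (G⁻¹).1.mulVec (G.1.mulVec v) = v := by
      rw [Matrix.mulVec_mulVec, ← Matrix.SpecialLinearGroup.coe_mul, inv_mul_cancel,
        Matrix.SpecialLinearGroup.coe_one, Matrix.one_mulVec]
    rw [← this, h0, Matrix.mulVec_zero]
  · rw [Matrix.mulVec_mulVec, ← Matrix.SpecialLinearGroup.coe_mul, inv_mul_cancel_right,
      Matrix.SpecialLinearGroup.coe_mul, ← Matrix.mulVec_mulVec, hcv, Matrix.mulVec_smul]

theorem kill_nonfix (hq : Fintype.card F % 4 = 3) {S : Finset (F × F)}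
    (hS : ∀ s ∈ S, s.2 ∈ sqs F)
    (hdom : ∀ z : F × F, z.2 ∈ sqs F → ∃ s ∈ S, s = z ∨ (s.1 - z.1) ^ 2 + s.2 + z.2 = 0)
    {y : PSL2 F} (hy : ¬ Fix y) : ∃ s ∈ S, Subgroup.closure {T s, y} ≠ ⊤ := by
  obtain ⟨Y, rfl⟩ := pr_surj y
  rcases dichotomy hq Y with ⟨v, hv, he⟩ | ⟨z, hz, hcomm⟩
  · exact absurd ⟨Y, rfl, v, hv, he⟩ hy
  · obtain ⟨s, hs, hrel⟩ := hdom z hz
    refine ⟨s, hs, ?_⟩
    obtain ⟨g, hg⟩ := pr_M_not_central (x := z.1) (rt_ne z.2)
    refine kill_comm (m := T z) (g := g) ?_ ?_ hg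
    · rcases hrel with rfl | hrel
      · rfl
      · apply pr_M_comm
        rw [rt_sq (hS s hs), rt_sq hz]
        exact hrel
    · rw [T, ← map_mul, hcomm _ _ (rt_sq hz), map_mul]

/-- a diagonal element -/
def X0 (lam : F) (h : lam ≠ 0) : SL2 F :=
  ⟨!![lam, 0; 0, lam⁻¹], by rw [Matrix.det_fin_two]; simp [h]⟩

/-- an element fixing the points `a` and `-a`, where `r = a^2` -/
noncomputable def X1 (h2 : (2 : F) ≠ 0) (lam : F) (h : lam ≠ 0) (r : F) : SL2 F :=
  ⟨!![(lam + lam⁻¹) / 2, rt r ^ 2 * ((lam - lam⁻¹) / (2 * rt r));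
      (lam - lam⁻¹) / (2 * rt r), (lam + lam⁻¹) / 2], by
    have hr := rt_ne r
    have h4 : (4 : F) ≠ 0 := by
      have : (4 : F) = 2 * 2 := by norm_num
      rw [this]
      exact mul_ne_zero h2 h2
    rw [Matrix.det_fin_two]
    simp only [Matrix.of_apply, Matrix.cons_val', Matrix.cons_val_zero, Matrix.cons_val_one,
      Matrix.empty_val', Matrix.cons_val_fin_one]
    field_simp
    ring⟩

theorem X0_ne {lam : F} (h : lam ≠ 0) (hl : lam ^ 2 ≠ 1) : pr F (X0 lam h) ≠ 1 := by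
  intro h1
  obtain ⟨c, hc⟩ := center_entries (pr_eq_one.1 h1)
  have e0 := congrFun (congrFun hc 0) 0
  have e1 := congrFun (congrFun hc 1) 1
  simp [X0] at e0 e1
  apply hl
  rw [pow_two]
  nth_rewrite 2 [e0]
  rw [← e1, mul_inv_cancel₀ h]

theorem X1_ne (h2 : (2 : F) ≠ 0) {lam : F} (h : lam ≠ 0) (hl : lam ^ 2 ≠ 1) (r : F) :
    pr F (X1 h2 lam h r) ≠ 1 := by
  intro h1
  obtain ⟨c, hc⟩ := center_entries (pr_eq_one.1 h1)
  have e0 := congrFun (congrFun hc 1) 0
  simp [X1, h2, rt_ne] at e0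
  apply hl
  have : lam = lam⁻¹ := by linear_combination e0
  rw [pow_two]
  nth_rewrite 2 [this]
  exact mul_inv_cancel₀ h

theorem kill_fix_family (hq : Fintype.card F % 4 = 3) (h2 : (2 : F) ≠ 0) {lam : F}
    (h : lam ≠ 0) {y : PSL2 F} (hy : Fix y) :
    Subgroup.closure {pr F (X0 lam h), y} ≠ ⊤ ∨
      ∃ r ∈ sqs F, Subgroup.closure {pr F (X1 h2 lam h r), y} ≠ ⊤ := by
  obtain ⟨Y, rfl, v, hv, he⟩ := hy
  by_cases h1 : v 1 = 0
  · left
    refine kill_fix hv ⟨lam, ?_⟩ he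
    ext i
    fin_cases i <;> simp [X0, Matrix.mulVec, dotProduct, Fin.sum_univ_two, h1]
  by_cases h0 : v 0 = 0
  · left
    refine kill_fix hv ⟨lam⁻¹, ?_⟩ he
    ext i
    fin_cases i <;> simp [X0, Matrix.mulVec, dotProduct, Fin.sum_univ_two, h0]
  · right
    have ha : v 0 / v 1 ≠ 0 := div_ne_zero h0 h1
    have hr : (v 0 / v 1) ^ 2 ∈ sqs F :=
      mem_sqs.2 ⟨pow_ne_zero _ ha, ⟨v 0 / v 1, pow_two _⟩⟩
    refine ⟨(v 0 / v 1) ^ 2, hr, ?_⟩
    have hrt := rt_sq hr
    have hr0 := rt_ne ((v 0 / v 1) ^ 2)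
    refine kill_fix hv
      ⟨(lam + lam⁻¹) / 2 + v 0 / v 1 * ((lam - lam⁻¹) / (2 * rt ((v 0 / v 1) ^ 2))), ?_⟩ he
    generalize hs : (lam - lam⁻¹) / (2 * rt ((v 0 / v 1) ^ 2)) = s
    ext i
    fin_cases i
    · simp only [X1, Matrix.mulVec, dotProduct, Fin.sum_univ_two, hs, hrt]
      simp
      field_simp
    · simp only [X1, Matrix.mulVec, dotProduct, Fin.sum_univ_two, hs]
      simp
      field_simp
      ring

theorem main (F : Type*) [Field F] [Fintype F] (hq : Fintype.card F % 4 = 3)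
    (h7 : 7 ≤ Fintype.card F) :
    (∀ k, HasSpread (PSL2 F) k → k ≤ (Fintype.card F - 1) / 2 * Nat.clog 2 (Fintype.card F)
        + (Fintype.card F - 2)) ∧
    (∀ k, HasUniformSpread (PSL2 F) k →
      k ≤ (Fintype.card F - 1) / 2 * Nat.clog 2 (Fintype.card F)
        + (Fintype.card F - 5) / 2) := by
  classical
  have h2 : (2 : F) ≠ 0 := two_ne_zero' hq
  set q := Fintype.card F with hqdef
  set K := Nat.clog 2 q with hKdef
  have hK : q ≤ 2 ^ K := Nat.le_pow_clog (by norm_num) q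
  have hK0 : 0 < K := Nat.clog_pos (by norm_num) (by omega)
  obtain ⟨S, hS, hSc, hdom⟩ := domination (F := F) hq K hK0 hK
  obtain ⟨lam, hlam⟩ : ∃ lam : F, lam ∉ ({0, 1, -1} : Finset F) := by
    by_contra hcon
    push Not at hcon
    have h3 : (Finset.univ : Finset F).card ≤ ({0, 1, -1} : Finset F).card :=
      Finset.card_le_card (fun x _ => hcon x)
    have h4 : ({0, 1, -1} : Finset F).card ≤ 3 := Finset.card_le_three
    rw [Finset.card_univ, ← hqdef] at h3
    omega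
  simp only [Finset.mem_insert, Finset.mem_singleton, not_or] at hlam
  obtain ⟨hl0, hl1, hl2⟩ := hlam
  have hl : lam ^ 2 ≠ 1 := by
    intro h
    have : (lam - 1) * (lam + 1) = 0 := by linear_combination h
    rcases mul_eq_zero.1 this with h | h
    · exact hl1 (by linear_combination h)
    · exact hl2 (by linear_combination h)
  set WS : Finset (PSL2 F) := S.image T with hWS
  set WX : Finset (PSL2 F) :=
    insert (pr F (X0 lam hl0)) ((sqs F).image (fun r => pr F (X1 h2 lam hl0 r))) with hWX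
  have hWSc : WS.card ≤ (q - 1) / 2 * K + (q - 3) / 2 := Finset.card_image_le.trans hSc
  have hR := two_mul_card_sqs (F := F) hq
  rw [← hqdef] at hR
  have hWXc : WX.card ≤ (q + 1) / 2 := by
    refine (Finset.card_insert_le _ _).trans ?_
    have : ((sqs F).image (fun r => pr F (X1 h2 lam hl0 r))).card ≤ (sqs F).card :=
      Finset.card_image_le
    omega
  have hWS1 : ∀ w ∈ WS, w ≠ 1 := by
    intro w hw
    obtain ⟨s, -, rfl⟩ := Finset.mem_image.1 hw
    exact T_ne_one s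
  have hWX1 : ∀ w ∈ WX, w ≠ 1 := by
    intro w hw
    rcases Finset.mem_insert.1 hw with rfl | hw
    · exact X0_ne hl0 hl
    · obtain ⟨r, -, rfl⟩ := Finset.mem_image.1 hw
      exact X1_ne h2 hl0 hl r
  have hWXne : WX.Nonempty := ⟨_, Finset.mem_insert_self _ _⟩
  have hWSne : WS.Nonempty := by
    obtain ⟨s, hs, -⟩ := hdom (0, 1) (mem_sqs.2 ⟨one_ne_zero, ⟨1, by simp⟩⟩)
    exact ⟨T s, Finset.mem_image_of_mem _ hs⟩
  have killX : ∀ y : PSL2 F, Fix y → ∃ w ∈ WX, Subgroup.closure {w, y} ≠ ⊤ := by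
    intro y hy
    rcases kill_fix_family hq h2 hl0 hy with h | ⟨r, hr, h⟩
    · exact ⟨_, Finset.mem_insert_self _ _, h⟩
    · exact ⟨_, Finset.mem_insert_of_mem (Finset.mem_image_of_mem _ hr), h⟩
  have killS : ∀ y : PSL2 F, ¬ Fix y → ∃ w ∈ WS, Subgroup.closure {w, y} ≠ ⊤ := by
    intro y hy
    obtain ⟨s, hs, h⟩ := kill_nonfix hq hS hdom hy
    exact ⟨_, Finset.mem_image_of_mem _ hs, h⟩
  have hmul : (q - 1) / 2 ≤ (q - 1) / 2 * K := Nat.le_mul_of_pos_right _ hK0
  constructor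
  · intro k hk
    have hlt : k < (WS ∪ WX).card := by
      refine lt_of_kill (WS ∪ WX) (hWSne.mono Finset.subset_union_left) ?_ (fun _ => True) ?_ ?_
      · intro w hw
        rcases Finset.mem_union.1 hw with h | h
        · exact hWS1 w h
        · exact hWX1 w h
      · intro y _
        by_cases hy : Fix y
        · obtain ⟨w, hw, h⟩ := killX y hy
          exact ⟨w, Finset.mem_union_right _ hw, h⟩
        · obtain ⟨w, hw, h⟩ := killS y hy
          exact ⟨w, Finset.mem_union_left _ hw, h⟩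
      · intro x hx
        obtain ⟨y, hy⟩ := hk x hx
        exact ⟨y, trivial, hy⟩
    have := Finset.card_union_le WS WX
    omega
  · rintro k ⟨c, hk⟩
    by_cases hc : Fix c
    · have hlt : k < WX.card :=
        lt_of_kill WX hWXne hWX1 (fun y => IsConj c y) (fun y hy => killX y (hc.conj hy)) hk
      omega
    · have hlt : k < WS.card :=
        lt_of_kill WS hWSne hWS1 (fun y => IsConj c y)
          (fun y hy => killS y (fun hf => hc (hf.conj hy.symm))) hk
      omega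

end Pool.Agent.Helper38.SP
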